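import Mathlib
import Pool.Agent.PGZ2.Main

/-!
# L-functions, in all degrees, of varieties built from Hilbert schemes of points of surfaces

`F / ℚ` is a finite Galois extension with group `G`. `Cls G a` is the class of graded characters
generated by the signed permutation characters and by the Hilbert schemes of points of surfaces
(Göttsche's formula `gott`) under sums, products, restriction, induction and tensor induction;
`a j` is the character of `H^{2j}(X)(j)`. The second cohomology `Λ` of the surface satisfies
`Good G Λ`: its character is a signed permutation character, or the sum of one (blow-ups at closed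
points) and of the character of a unimodular lattice `N` with a form `B` and a characteristic vector
`w` (the class `K`) such that `IsCyc G B w ε` and `RankOK G B w ε` hold (`b₂ - ρ ≤ 5`).

If `W` is a lattice with character `a j`, the full Euler product of `W` (with the inertia
invariants at all primes) is, in its half plane of convergence, `D s / (s - (j + 1)) ^ n` with an
entire function `D`.

The definitions are in `Pool.Agent.PGZ2.Defs` and `Pool.Agent.PGZ.Defs`.
-/

set_option autoImplicit false

noncomputable section

namespace Pool.Agent.Results.MP_039d94_nt.HilbertSchemes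

open NumberField Pool.Agent.PGZ Pool.Agent.PGZ2

theorem result (F : Type) [Field F] [NumberField F] [IsGalois ℚ F] (a : ℕ → (F ≃ₐ[ℚ] F) → ℤ)
    (ha : Cls (F ≃ₐ[ℚ] F) a) (j : ℕ) (W : Type) [AddCommGroup W] [Module.Free ℤ W]
    [Module.Finite ℤ W] [DistribMulAction (F ≃ₐ[ℚ] F) W]
    (hW : ∀ g : F ≃ₐ[ℚ] F, LinearMap.trace ℤ W (act W g) = a j g) :
    ∃ (D : ℂ → ℂ) (n : ℕ), Differentiable ℂ D ∧
      ∀ (P : Nat.Primes → Ideal (𝓞 F)) (σ : Nat.Primes → (F ≃ₐ[ℚ] F))
        (hP : ∀ p, (P p).IsPrime) (_ : ∀ p : Nat.Primes, ((p : ℕ) : 𝓞 F) ∈ P p)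
        (hσ : ∀ p, IsArithFrobAt ℤ (σ p) (P p)) (s : ℂ), (j : ℝ) + 1 < s.re →
        HasProd (fun p : Nat.Primes => euler W (hP p) (hσ p) ((p : ℂ) ^ ((j : ℂ) - s)))
          (D s / (s - ((j : ℂ) + 1)) ^ n) :=
  main F a ha j W hW

end Pool.Agent.Results.MP_039d94_nt.HilbertSchemes
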