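import Pool.Agent.ARC.FinalProd

/-!
# L-functions of products of Hilbert schemes of points of surfaces in the middle degrees

For every `b` there is a number `A` with the following property. Let `F / ℚ` be a finite Galois
extension with group `G` and `V i` (`i : ι`, a finite family) lattices of rank at most `b`, each
with a faithful action of `G` and a nonzero invariant vector (the Néron-Severi lattices of surfaces
`S i` over `ℚ` with `p_g = q = 0` and second Betti number at most `b`, with `F` as their splitting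
field). Let `N = ∑ i, n i`. If `A ≤ k ≤ 2 N - A` and `W` is a lattice with the character of
`H^{2k}(∏ i, S i ^[n i])(k)` (the coefficient of `y ^ k` in the product of the polynomials
`∑ j, gott (symTr (act (V i) g)) (n i) j * y ^ j`, Göttsche's formula and Künneth's formula), then
the full Euler product of `W` (with the inertia invariants at all primes) is, in its half plane of
convergence, `D s / (s - (k + 1)) ^ r` with an entire function `D`.

The definitions are in `Pool.Agent.PGZ2.Defs` and `Pool.Agent.PGZ.Defs`.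
-/

set_option autoImplicit false

noncomputable section

namespace Pool.Agent.Results.MP_039d94_nt.MiddleDegrees

open NumberField Module Pool.Agent.PGZ Pool.Agent.PGZ2

theorem result (b : ℕ) : ∃ A : ℕ, ∀ (F : Type) [Field F] [NumberField F] [IsGalois ℚ F]
    (ι : Type) [Fintype ι] (V : ι → Type) [∀ i, AddCommGroup (V i)] [∀ i, Module.Free ℤ (V i)]
    [∀ i, Module.Finite ℤ (V i)] [∀ i, DistribMulAction (F ≃ₐ[ℚ] F) (V i)],
    (∀ i, finrank ℤ (V i) ≤ b) →
    (∀ i, ∀ g : F ≃ₐ[ℚ] F, (∀ v : V i, g • v = v) → g = 1) →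
    (∀ i, ∃ v : V i, v ≠ 0 ∧ ∀ g : F ≃ₐ[ℚ] F, g • v = v) →
    ∀ (n : ι → ℕ) (k : ℕ), A ≤ k → A + k ≤ 2 * ∑ i, n i →
    ∀ (W : Type) [AddCommGroup W] [Module.Free ℤ W] [Module.Finite ℤ W]
      [DistribMulAction (F ≃ₐ[ℚ] F) W],
      (∀ g : F ≃ₐ[ℚ] F, LinearMap.trace ℤ W (act W g) =
        PowerSeries.coeff k (∏ i, PowerSeries.mk fun j => gott (symTr (act (V i) g)) (n i) j)) →
    ∃ (D : ℂ → ℂ) (r : ℕ), Differentiable ℂ D ∧
      ∀ (P : Nat.Primes → Ideal (𝓞 F)) (σ : Nat.Primes → (F ≃ₐ[ℚ] F))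
        (hP : ∀ p, (P p).IsPrime) (_ : ∀ p : Nat.Primes, ((p : ℕ) : 𝓞 F) ∈ P p)
        (hσ : ∀ p, IsArithFrobAt ℤ (σ p) (P p)) (s : ℂ), (k : ℝ) + 1 < s.re →
        HasProd (fun p : Nat.Primes => euler W (hP p) (hσ p) ((p : ℂ) ^ ((k : ℂ) - s)))
          (D s / (s - ((k : ℂ) + 1)) ^ r) :=
  Pool.Agent.ARC.middle_prod b

end Pool.Agent.Results.MP_039d94_nt.MiddleDegrees
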