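import Mathlib
import Pool.Agent.PPL.FIN

/-! # Moduli spaces of points in the projective plane: point counts of all twisted forms over finite
fields, and Hasse–Weil L-functions of all twisted forms over the rational numbers

The moduli space of `n` ordered points in the plane is the quotient of the set of stable families
`x : R → P^2` of points, `card R = n`, by the projective linear group. A family is stable if for each
proper subspace `U` of the three-dimensional space less than `n * dim U / 3` of the points lie in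
`U` (Mumford's criterion). -/

noncomputable section

namespace Pool.Agent.Results.MP_039d94_nt.PointsInPlane

open Pool.Agent.Helper4 Polynomial NumberField IsDedekindDomain Module
open scoped LinearAlgebra.Projectivization

/-- the `q`-power map on the projective plane: `(a : b : c)` goes to `(a ^ q : b ^ q : c ^ q)` -/
def frob {Ω : Type} [Field Ω] (q : ℕ) (x : ℙ Ω (Fin 3 → Ω)) : ℙ Ω (Fin 3 → Ω) :=
  Projectivization.mk Ω (fun j => x.rep j ^ q) (by
    obtain ⟨j, hj⟩ := Function.ne_iff.mp x.rep_nonzero
    exact Function.ne_iff.mpr ⟨j, pow_ne_zero q hj⟩)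

/-- stable families of points of the plane -/
def Stable {Ω : Type} [Field Ω] {R : Type} (x : R → ℙ Ω (Fin 3 → Ω)) : Prop :=
  ∀ U : Submodule Ω (Fin 3 → Ω), U ≠ ⊥ → U ≠ ⊤ →
    3 * Nat.card {i : R // (x i).submodule ≤ U} < Nat.card R * finrank Ω U

/-- stable families up to projective transformations -/
def proj (Ω R : Type) [Field Ω] : Setoid {x : R → ℙ Ω (Fin 3 → Ω) // Stable x} where
  r x y := ∃ g : GL (Fin 3) Ω, ∀ i, y.1 i = g • x.1 i
  iseqv := by
    refine ⟨fun x => ⟨1, fun i => (one_smul _ _).symm⟩, ?_, ?_⟩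
    · rintro x y ⟨g, hg⟩
      exact ⟨g⁻¹, fun i => by rw [hg, inv_smul_smul]⟩
    · rintro x y z ⟨g, hg⟩ ⟨h, hh⟩
      exact ⟨h * g, fun i => by rw [hh, hg, mul_smul]⟩

/-- the moduli space of points in the plane labelled by `R`, over the algebraically closed field
`Ω` -/
abbrev Moduli (Ω R : Type) [Field Ω] : Type := Quotient (proj Ω R)

/-- the number of points over the field with `q` elements, with algebraic closure `Ω`, of the twist
by the permutation `τ` of the moduli space of points in the plane labelled by `R`: the classes `c`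
such that for `x` in `c` the `q`-power map takes the family `x` to the family
`i ↦ x (τ i)`, up to a projective transformation -/
def twistCount (Ω : Type) [Field Ω] (q : ℕ) {R : Type} (τ : Equiv.Perm R) : ℕ :=
  Nat.card {c : Moduli Ω R // ∀ x, Quotient.mk (proj Ω R) x = c →
    ∃ g : GL (Fin 3) Ω, ∀ i, frob q (x.1 i) = g • x.1 (τ i)}

/-- the roots of `f` in an algebraic closure of the field with `p` elements -/
abbrev Roots (f : ℤ[X]) (p : ℕ) [Fact p.Prime] : Type :=
  {x : AlgebraicClosure (ZMod p) // f.eval₂ (Int.castRingHom _) x = 0}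

/-- the number of points over the field with `p ^ r` elements of the moduli space of points in the
plane labelled by the roots of `f`: the classes of the stable families `x` such that, up to a
projective transformation, the `p ^ r`-power map takes the point `x i` to the point
`x (i ^ (p ^ r))` -/
def formCount (f : ℤ[X]) (p : ℕ) [Fact p.Prime] (r : ℕ) : ℕ :=
  Nat.card {c : Moduli (AlgebraicClosure (ZMod p)) (Roots f p) //
    ∀ x, Quotient.mk (proj (AlgebraicClosure (ZMod p)) (Roots f p)) x = c →
      ∃ g : GL (Fin 3) (AlgebraicClosure (ZMod p)), ∀ i i' : Roots f p, i'.1 = i.1 ^ (p ^ r) →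
        frob (p ^ r) (x.1 i) = g • x.1 i'}

/-- A signed permutation representation of the group `G`: `G` acts on the finite set `B` and
`g` maps the basis vector of `b` to `ε g b` times the basis vector of `g • b`. -/
structure SignedRep (G : Type) [Group G] where
  B : Type
  fin : Fintype B
  act : MulAction G B
  ε : G → B → ℤˣ
  mul : ∀ g h b, ε (g * h) b = ε g (h • b) * ε h b

open scoped Classical in
/-- the trace of `g` on the signed permutation representation -/
def SignedRep.trace {G : Type} [Group G] (S : SignedRep G) (g : G) : ℤ :=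
  letI := S.fin
  letI := S.act
  ∑ b : S.B, if g • b = b then (S.ε g b : ℤ) else 0

/-- The Euler factor at `p` of the Dedekind zeta function of the number field `K` at `s`. -/
def dedFactor (K : Type) [Field K] [NumberField K] (s : ℂ) (p : ℕ) : ℂ :=
  ∏ᶠ q : {q : HeightOneSpectrum (𝓞 K) // (p : 𝓞 K) ∈ q.asIdeal},
    (1 - (Ideal.absNorm q.1.asIdeal : ℂ) ^ (-s))⁻¹

section comparison

private lemma hyp_of_isAlgClosure (p : ℕ) [hp : Fact p.Prime] (Ω : Type) [Field Ω]
    [Algebra (ZMod p) Ω] [IsAlgClosure (ZMod p) Ω] {r : ℕ} (hr : 1 ≤ r) : PPL.Hyp Ω (p ^ r) := by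
  have hcl : IsAlgClosed Ω := IsAlgClosure.isAlgClosed (ZMod p)
  have hch : CharP Ω p := charP_of_injective_algebraMap (algebraMap (ZMod p) Ω).injective p
  refine ⟨⟨hcl, p, r, hp.out, hch, hr, rfl⟩, fun a => ?_⟩
  let e := IsAlgClosure.equiv (ZMod p) Ω (AlgebraicClosure (ZMod p))
  obtain ⟨N, hN, h⟩ := (PPL.hyp_algClosure p hr).alg (e a)
  exact ⟨N, hN, e.injective (by rw [map_pow, h])⟩

private lemma twistCount_eq (Ω : Type) [Field Ω] (q : ℕ) {R : Type} (τ : Equiv.Perm R) :
    twistCount Ω q τ = PPL.twCount Ω q τ := rfl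

private lemma formCount_eq (f : ℤ[X]) (p : ℕ) [Fact p.Prime] (r : ℕ) :
    formCount f p r = PPL.planeCount f p r := rfl

end comparison

/-- Signed permutation representations computing the numbers of points of all twisted forms of the
moduli space of `n` ordered points in the plane over all finite fields, and Q1 for all its forms
over the rational numbers labelled by the roots of a polynomial, in all degrees, for `n ≥ 4` not
divisible by three. -/
theorem result (n : ℕ) (h4 : 4 ≤ n) (h3 : ¬ 3 ∣ n) :
    ∃ S : ℕ → SignedRep (Equiv.Perm (Fin n)),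
      (∀ (p : ℕ) [Fact p.Prime] (Ω : Type) [Field Ω] [Algebra (ZMod p) Ω]
        [IsAlgClosure (ZMod p) Ω] (r : ℕ), 1 ≤ r → ∀ τ : Equiv.Perm (Fin n),
        (twistCount Ω (p ^ r) τ : ℤ) =
          ∑ k ∈ Finset.range (2 * n - 7), ((p : ℤ) ^ r) ^ k * (S k).trace τ) ∧
      ∀ f : ℤ[X], f.Monic → (f.map (Int.castRingHom ℚ)).Separable → f.natDegree = n →
        {p : ℕ | p.Prime ∧ ¬ (f.map (Int.castRingHom (ZMod p))).Separable}.Finite ∧
        (∀ (p : ℕ) [Fact p.Prime], (f.map (Int.castRingHom (ZMod p))).Separable →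
          ∃! B : ℕ → Multiset ℂ, IsFrobSpec p (fun r => formCount f p r) B) ∧
        ∃ (ι : Type) (_ : Fintype ι) (K : ι → Type) (_ : ∀ l, Field (K l))
          (_ : ∀ l, NumberField (K l)) (e : ι → ℕ → ℤ),
          (∀ (p : ℕ) [Fact p.Prime] (B : ℕ → Multiset ℂ),
            (f.map (Int.castRingHom (ZMod p))).Separable →
            IsFrobSpec p (fun r => formCount f p r) B →
            ∀ (i : ℕ) (s : ℂ), (i : ℝ) / 2 < s.re →
              ((B i).map (fun α => (1 - α * (p : ℂ) ^ (-s))⁻¹)).prod =
                ∏ l, dedFactor (K l) (s - (i : ℂ) / 2) p ^ e l i) ∧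
          ∀ i : ℕ, ∃ (H : ℂ → ℂ) (m : ℕ), Differentiable ℂ H ∧ (Odd i → m = 0) ∧
            ∀ s : ℂ, (i : ℝ) / 2 + 1 < s.re →
              HasProd (fun p : Nat.Primes => ∏ l, dedFactor (K l) (s - (i : ℂ) / 2) p ^ e l i)
                (H s / (s - ((i : ℂ) / 2 + 1)) ^ m) := by
  obtain ⟨S, h1, h2⟩ := PPL.plane_main n h3 h4
  refine ⟨fun k => ⟨(S k).B, (S k).fin, (S k).act, (S k).ε, (S k).mul⟩, ?_,
    fun f hf hsep hdeg => ?_⟩
  · intro p hp Ω _ _ _ r hr τ
    have h3 := h1 Ω (p ^ r) (hyp_of_isAlgClosure p Ω hr) τ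
    rw [twistCount_eq, h3]
    push_cast
    rfl
  have hgood : ∀ p : ℕ, (f.map (Int.castRingHom (ZMod p))).Separable →
      p ∉ {p | p.Prime ∧ ¬ (f.map (Int.castRingHom (ZMod p))).Separable} :=
    fun p hp h => h.2 hp
  obtain ⟨h3, ι, iι, K, iF, iN, e, h4, h5⟩ := h2 f hf hsep hdeg
  simp only [← formCount_eq] at h3 h4
  exact ⟨finite_bad_poly f hsep, fun p hp hg => h3 p (hgood p hg), ι, iι, K, iF, iN, e,
    fun p hp B hg hB i s hs => h4 p B (hgood p hg) hB i s hs, h5⟩

end Pool.Agent.Results.MP_039d94_nt.PointsInPlane
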