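import Mathlib
import Pool.Agent.Mbar.FINAL

/-! # Moduli spaces of stable rational curves: point counts of all twisted forms over finite
fields, and Hasse–Weil L-functions of all twisted forms over the rational numbers

The moduli space of stable rational curves with marked points labelled by a finite set `R` is the
subspace of a product of projective lines, one for each four distinct labels `i, j, k, l`, defined
by the relations between the cross ratios of the marked points
(Gerritzen, Herrlich and van der Put). -/

noncomputable section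

namespace Pool.Agent.Results.MP_039d94_nt.StableCurves

open Pool.Agent.Helper4 Polynomial NumberField IsDedekindDomain

/-- homogeneous coordinates of a point of the projective line: `∞ = (1 : 0)` and `x = (x : 1)` -/
def hom {Ω : Type} [Field Ω] : OnePoint Ω → Ω × Ω
  | OnePoint.infty => (1, 0)
  | OnePoint.some x => (x, 1)

/-- `i, j, k, l` are distinct -/
def Distinct {R : Type} (i j k l : R) : Prop :=
  (i ≠ j ∧ i ≠ k ∧ j ≠ k) ∧ l ≠ i ∧ l ≠ j ∧ l ≠ k

/-- The family `lam` is a point of the moduli space of stable rational curves with marked points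
labelled by `R`, defined over the field `Ω`: `lam i j k l` is the cross ratio of the marked points
`i, j, k, l`, and all relations are written in homogeneous coordinates. -/
structure IsPoint {Ω : Type} [Field Ω] {R : Type} (lam : R → R → R → R → OnePoint Ω) : Prop where
  /-- the values at labels which are not distinct play no role and are normalised -/
  junk : ∀ i j k l, ¬ Distinct i j k l → lam i j k l = OnePoint.infty
  /-- `lam j i k l = 1 / lam i j k l` -/
  inv : ∀ i j k l, Distinct i j k l →
    (hom (lam j i k l)).1 * (hom (lam i j k l)).1 = (hom (lam j i k l)).2 * (hom (lam i j k l)).2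
  /-- `lam i j l k = 1 / lam i j k l` -/
  swap : ∀ i j k l, Distinct i j k l →
    (hom (lam i j l k)).1 * (hom (lam i j k l)).1 = (hom (lam i j l k)).2 * (hom (lam i j k l)).2
  /-- `lam k j i l = 1 - lam i j k l` -/
  one_sub : ∀ i j k l, Distinct i j k l →
    (hom (lam k j i l)).1 * (hom (lam i j k l)).2 =
      (hom (lam k j i l)).2 * ((hom (lam i j k l)).2 - (hom (lam i j k l)).1)
  /-- `lam i j k l * lam i j l m = lam i j k m` -/
  mul : ∀ i j k l m, Distinct i j k l → Distinct i j k m → m ≠ l →
    (hom (lam i j k l)).1 * (hom (lam i j l m)).1 * (hom (lam i j k m)).2 =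
      (hom (lam i j k l)).2 * (hom (lam i j l m)).2 * (hom (lam i j k m)).1

/-- the number of points over the field with `q` elements, with algebraic closure `Ω`, of the twist
by the permutation `τ` of the moduli space of stable rational curves with marked points labelled by
`R` -/
def twistCount (Ω : Type) [Field Ω] (q : ℕ) {R : Type} (τ : Equiv.Perm R) : ℕ :=
  Nat.card {lam : R → R → R → R → OnePoint Ω // IsPoint lam ∧
    ∀ i j k l, lam (τ i) (τ j) (τ k) (τ l) = OnePoint.map (fun x => x ^ q) (lam i j k l)}

/-- the roots of `f` in an algebraic closure of the field with `p` elements -/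
abbrev Roots (f : ℤ[X]) (p : ℕ) [Fact p.Prime] : Type :=
  {x : AlgebraicClosure (ZMod p) // f.eval₂ (Int.castRingHom _) x = 0}

/-- the number of points over the field with `p ^ r` elements of the moduli space of stable rational
curves whose marked points are the roots of `f` -/
def formCount (f : ℤ[X]) (p : ℕ) [Fact p.Prime] (r : ℕ) : ℕ :=
  Nat.card {lam : Roots f p → Roots f p → Roots f p → Roots f p →
      OnePoint (AlgebraicClosure (ZMod p)) // IsPoint lam ∧
    ∀ i j k l i' j' k' l' : Roots f p, i'.1 = i.1 ^ (p ^ r) → j'.1 = j.1 ^ (p ^ r) →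
      k'.1 = k.1 ^ (p ^ r) → l'.1 = l.1 ^ (p ^ r) →
      lam i' j' k' l' = OnePoint.map (fun x => x ^ (p ^ r)) (lam i j k l)}

/-- A signed permutation representation of the group `G`: `G` acts on the finite set `B` and
`g` maps the basis vector of `b` to `ε g b` times the basis vector of `g • b`. -/
structure SignedRep (G : Type) [Group G] where
  B : Type
  fin : Fintype B
  act : MulAction G B
  ε : G → B → ℤˣ
  mul : ∀ g h b, ε (g * h) b = ε g (h • b) * ε h b

open scoped Classical in
/-- the trace of `g` on the signed permutation representation -/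
def SignedRep.trace {G : Type} [Group G] (S : SignedRep G) (g : G) : ℤ :=
  letI := S.fin
  letI := S.act
  ∑ b : S.B, if g • b = b then (S.ε g b : ℤ) else 0

/-- The Euler factor at `p` of the Dedekind zeta function of the number field `K` at `s`. -/
def dedFactor (K : Type) [Field K] [NumberField K] (s : ℂ) (p : ℕ) : ℂ :=
  ∏ᶠ q : {q : HeightOneSpectrum (𝓞 K) // (p : 𝓞 K) ∈ q.asIdeal},
    (1 - (Ideal.absNorm q.1.asIdeal : ℂ) ^ (-s))⁻¹

section comparison

lemma hom_eq {Ω : Type} [Field Ω] (x : OnePoint Ω) : hom x = Mbar.hc x := by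
  cases x <;> rfl

lemma distinct_iff {R : Type} (i j k l : R) :
    Distinct i j k l ↔ Mbar.Dist3 i j k ∧ Mbar.Out l i j k := Iff.rfl

lemma isPoint_iff {Ω : Type} [Field Ω] {R : Type} (lam : R → R → R → R → OnePoint Ω) :
    IsPoint lam ↔ Mbar.IsCR lam := by
  constructor
  · intro h
    obtain ⟨h1, h2, h3, h4, h5⟩ := h
    simp only [hom_eq] at h2 h3 h4 h5
    exact ⟨fun i j k l hd => h1 i j k l hd, fun i j k l a b => h2 i j k l ⟨a, b⟩,
      fun i j k l a b => h3 i j k l ⟨a, b⟩, fun i j k l a b => h4 i j k l ⟨a, b⟩,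
      fun i j k l m a b c d => h5 i j k l m ⟨a, b⟩ ⟨a, c⟩ d⟩
  · intro h
    obtain ⟨h1, h2, h3, h4, h5⟩ := h
    refine ⟨fun i j k l hd => h1 i j k l hd, ?_, ?_, ?_, ?_⟩
    · simp only [hom_eq]
      exact fun i j k l a => h2 i j k l a.1 a.2
    · simp only [hom_eq]
      exact fun i j k l a => h3 i j k l a.1 a.2
    · simp only [hom_eq]
      exact fun i j k l a => h4 i j k l a.1 a.2
    · simp only [hom_eq]
      exact fun i j k l m a b c => h5 i j k l m a.1 a.2 b.2 c

lemma twistCount_eq (Ω : Type) [Field Ω] (q : ℕ) {R : Type} (τ : Equiv.Perm R) :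
    twistCount Ω q τ = Mbar.crCount Ω q τ := by
  unfold twistCount Mbar.crCount
  simp only [isPoint_iff]

lemma formCount_eq (f : ℤ[X]) (p : ℕ) [Fact p.Prime] (r : ℕ) :
    formCount f p r = Mbar.mbarCount f p r := by
  unfold formCount Mbar.mbarCount
  simp only [isPoint_iff]

end comparison

/-- Signed permutation representations computing the numbers of points of all twisted forms of the
moduli space of stable rational curves with `n` marked points over all finite fields, and Q1 for all
its forms over the rational numbers whose marked points are the roots of a polynomial, in all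
degrees. -/
theorem result (n : ℕ) (hn : 3 ≤ n) :
    ∃ (D : ℕ) (S : ℕ → SignedRep (Equiv.Perm (Fin n))),
      (∀ (Ω : Type) [Field Ω] [IsAlgClosed Ω] (p : ℕ) [Fact p.Prime] [CharP Ω p] (r : ℕ), 1 ≤ r →
        ∀ τ : Equiv.Perm (Fin n),
        (twistCount Ω (p ^ r) τ : ℤ) = ∑ k ∈ Finset.range D, ((p : ℤ) ^ r) ^ k * (S k).trace τ) ∧
      ∀ f : ℤ[X], f.Monic → (f.map (Int.castRingHom ℚ)).Separable → f.natDegree = n →
        {p : ℕ | p.Prime ∧ ¬ (f.map (Int.castRingHom (ZMod p))).Separable}.Finite ∧
        (∀ (p : ℕ) [Fact p.Prime], (f.map (Int.castRingHom (ZMod p))).Separable →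
          ∃! B : ℕ → Multiset ℂ, IsFrobSpec p (fun r => formCount f p r) B) ∧
        ∃ (ι : Type) (_ : Fintype ι) (K : ι → Type) (_ : ∀ l, Field (K l))
          (_ : ∀ l, NumberField (K l)) (e : ι → ℕ → ℤ),
          (∀ (p : ℕ) [Fact p.Prime] (B : ℕ → Multiset ℂ),
            (f.map (Int.castRingHom (ZMod p))).Separable →
            IsFrobSpec p (fun r => formCount f p r) B →
            ∀ (i : ℕ) (s : ℂ), (i : ℝ) / 2 < s.re →
              ((B i).map (fun α => (1 - α * (p : ℂ) ^ (-s))⁻¹)).prod =
                ∏ l, dedFactor (K l) (s - (i : ℂ) / 2) p ^ e l i) ∧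
          ∀ i : ℕ, ∃ (H : ℂ → ℂ) (m : ℕ), Differentiable ℂ H ∧ (Odd i → m = 0) ∧
            ∀ s : ℂ, (i : ℝ) / 2 + 1 < s.re →
              HasProd (fun p : Nat.Primes => ∏ l, dedFactor (K l) (s - (i : ℂ) / 2) p ^ e l i)
                (H s / (s - ((i : ℂ) / 2 + 1)) ^ m) := by
  obtain ⟨D, S, h1, h2⟩ := Mbar.mbar_main n hn
  refine ⟨D, fun k => ⟨(S k).B, (S k).fin, (S k).act, (S k).ε, (S k).mul⟩, ?_,
    fun f hf hsep hdeg => ?_⟩
  · intro Ω _ hcl p hp hchar r hr τ
    have h3 := h1 Ω (p ^ r) ⟨hcl, p, r, hp.out, hchar, hr, rfl⟩ τ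
    rw [twistCount_eq, h3]
    push_cast
    rfl
  have hgood : ∀ p : ℕ, (f.map (Int.castRingHom (ZMod p))).Separable →
      p ∉ {p | p.Prime ∧ ¬ (f.map (Int.castRingHom (ZMod p))).Separable} :=
    fun p hp h => h.2 hp
  obtain ⟨h3, ι, iι, K, iF, iN, e, h4, h5⟩ := h2 f hf hsep hdeg
  simp only [← formCount_eq] at h3 h4
  exact ⟨finite_bad_poly f hsep, fun p hp hg => h3 p (hgood p hg), ι, iι, K, iF, iN, e,
    fun p hp B hg hB i s hs => h4 p B (hgood p hg) hB i s hs, h5⟩

end Pool.Agent.Results.MP_039d94_nt.StableCurves
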